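import Pool.Agent.MP_e299c6_nt.Main

set_option autoImplicit false

namespace Pool.Agent.Results.MP_e299c6_nt.LevelSetsClosed

open Filter Topology Pool.Agent.MP_e299c6_nt

/-- Every level set `{x > 0 : q_s(x) = q}`, `q ∈ (1,2]`, is closed in `(0,∞)`. -/
theorem result : ∀ q : ℝ, 1 < q → q ≤ 2 →
    IsClosed {x : Set.Ioi (0 : ℝ) | qs (x : ℝ) = q} := by
  intro q hq hq2
  rw [← closure_subset_iff_isClosed]
  intro x hx
  rw [mem_closure_iff_frequently] at hx
  have h1 : ∃ᶠ y in 𝓝 (x : ℝ), qs y = q := by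
    have h2 : Tendsto (fun z : Set.Ioi (0 : ℝ) => (z : ℝ)) (𝓝 x) (𝓝 (x : ℝ)) :=
      continuous_subtype_val.tendsto x
    exact h2.frequently hx
  exact qs_eq_of_frequently hq hq2 x.2 h1

end Pool.Agent.Results.MP_e299c6_nt.LevelSetsClosed
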